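import Pool.Agent.H91.SF.Main
import Pool.Agent.H59.Zar.RelGood

/-!
# Exact joint class returns are dense over good points (final form of section 2)
-/

set_option autoImplicit false
set_option linter.unusedSectionVars false
set_option linter.unusedVariables false

open scoped InnerProductSpace Topology ContDiff
open Set Filter

namespace Pool.Agent.H77.SN

open Pool.Agent.H91.GE hiding G1 G11 Nondeg Br exists_br cF smooth_cF Cfg mem_TSet_of_map
open Pool.Agent.H59.LV Pool.Agent.H59.ND Pool.Agent.H59.Zar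

variable {E F : Type*} [NormedAddCommGroup E] [InnerProductSpace ℝ E] [FiniteDimensional ℝ E]
  [NormedAddCommGroup F] [InnerProductSpace ℝ F] [FiniteDimensional ℝ F]
  {S : Set E} {A : E × E → E} {K K₂ : NNReal} {Φ : ℝ → E × E → E × E} {n m : ℕ}

theorem exists_JR' (h : GFlow F S A K K₂ Φ) (hdim : Module.finrank ℝ E = Module.finrank ℝ F + n)
    (hn : 2 ≤ n) (hsec : Secure S) {p : (E × E) × (E × E)} (hp : p ∈ RR Φ S)
    (hg : p.1 ∈ OO Φ S m) {O : Set ((E × E) × (E × E))} (hO : O ∈ 𝓝 p) :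
    ∃ (w : E × E) (L : ℝ), (w, Φ L w) ∈ O ∧ w ∈ OO Φ S m ∧ JR Φ S w L := by
  have h1 : ∀ᶠ w' in 𝓝[UT S] p.1, w' ∈ OO Φ S m := by
    filter_upwards [(retRel h hdim).good_open hg.1, hg.1.2] with w' h2 h3
    exact ⟨h2, h3.trans hg.2⟩
  obtain ⟨N, hN, hpN, hN'⟩ := mem_nhdsWithin.1 h1
  have h2 : O ∩ Prod.fst ⁻¹' N ∈ 𝓝 p :=
    inter_mem hO ((hN.preimage continuous_fst).mem_nhds hpN)
  have hfin : Module.finrank ℝ (EuclideanSpace ℝ (Fin n)) = n := finrank_euclideanSpace_fin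
  obtain ⟨w, L, h3, h4⟩ := Pool.Agent.H91.SF.dense_JR (N := EuclideanSpace ℝ (Fin n))
    (by rw [hfin]; exact hdim) (by rw [hfin]; omega) h hsec (q₀ := p) hp h2
  refine ⟨w, L, h3.1, ?_, h4⟩
  obtain ⟨ζ₁, ζ₂, ν₁, ν₂, hc, -, -⟩ := h4
  exact hN' ⟨h3.2, hc.mem⟩

end Pool.Agent.H77.SN
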