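import Pool.Agent.H77.SN.Facts

set_option autoImplicit false
set_option linter.unusedSectionVars false
set_option linter.unusedVariables false

open scoped InnerProductSpace Topology ContDiff
open Set Filter

namespace Pool.Agent.H77.SN

open Pool.Agent.H91.GE hiding G1 G11 Nondeg Br exists_br cF smooth_cF Cfg mem_TSet_of_map
open Pool.Agent.H59.LV Pool.Agent.H59.ND Pool.Agent.H59.Zar

variable {E F : Type*} [NormedAddCommGroup E] [InnerProductSpace ℝ E] [FiniteDimensional ℝ E]
  [NormedAddCommGroup F] [InnerProductSpace ℝ F] [FiniteDimensional ℝ F]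
  {S : Set E} {A : E × E → E} {K K₂ : NNReal} {Φ : ℝ → E × E → E × E} {n m : ℕ}

/-- At a transverse point the dimension of `Y` is at most `n`. -/
theorem finrank_le_of_tr (h : GFlow F S A K K₂ Φ)
    (hdim : Module.finrank ℝ E = Module.finrank ℝ F + n) {w : E × E} (hw : w ∈ UT S)
    (ht : Tr Φ S w) : Module.finrank ℝ (YY Φ S w) ≤ n := by
  have hmem : ∀ k ∈ YY Φ S w, (LinearMap.fst ℝ E E) k ∈ ZT S w.1 := fun k hk =>
    fst_mem_TS hw ((retRel h hdim).Y_le hw hk)
  rw [← finrank_TS hdim h.sub (fst_mem_TSet hw.1)]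
  refine LinearMap.finrank_le_finrank_of_injective
    (f := (LinearMap.fst ℝ E E).restrict hmem) ?_
  intro a b hab
  have h1 : (a : E × E).1 = (b : E × E).1 := congrArg Subtype.val hab
  have h2 : ((a : E × E) - b) ∈ YY Φ S w := (YY Φ S w).sub_mem a.2 b.2
  have h3 := ht _ h2 (by rw [Prod.fst_sub, h1, sub_self])
  exact Subtype.ext (sub_eq_zero.1 h3)

end Pool.Agent.H77.SN
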