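import Pool.Agent.H91.SF.Dens
import Pool.Agent.H59.Zar.Om
import Pool.Agent.H77.SN.Defs

/-!
# Nondegenerate connecting geodesics have nonconjugate end points
-/

set_option autoImplicit false

open scoped InnerProductSpace Topology ContDiff
open Set Filter

namespace Pool.Agent.H96.SF

open Pool.Agent.H91.GE hiding G1 G11 Nondeg Br exists_br cF smooth_cF Cfg mem_TSet_of_map
open Pool.Agent.H59.LV Pool.Agent.H59.ND Pool.Agent.H77.ND Pool.Agent.H59.Zar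
open Pool.Agent.H91.SF

variable {E F N : Type*} [NormedAddCommGroup E] [InnerProductSpace ℝ E] [FiniteDimensional ℝ E]
  [NormedAddCommGroup F] [InnerProductSpace ℝ F] [FiniteDimensional ℝ F]
  [NormedAddCommGroup N] [NormedSpace ℝ N] [FiniteDimensional ℝ N]
  {S : Set E} {A : E × E → E} {K K₂ : NNReal} {Φ : ℝ → E × E → E × E}
  {Ω₁ Ω₂ : Set N} {ψ₁ ψ₂ : N → E} {P₁ P₂ : E →L[ℝ] N} {W₁ W₂ : Set E}

/-- The derivative of the end point in terms of the flow. -/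
theorem fderiv_G11_snd (h : GFlow F S A K K₂ Φ) (hp₁ : Patch S Ω₁ ψ₁ P₁ W₁) {p w : N}
    (hp : p ∈ Ω₁) (hw : w ≠ 0) (b : N) :
    fderiv ℝ (G11 Φ ψ₁) (p, w) (0, b) =
      (fderiv ℝ (Φ ‖fderiv ℝ ψ₁ p w‖) (ψ₁ p, ‖fderiv ℝ ψ₁ p w‖⁻¹ • fderiv ℝ ψ₁ p w)
        (0, ‖fderiv ℝ ψ₁ p w‖⁻¹ • fderiv ℝ ψ₁ p b)).1 := by
  set L : ℝ := ‖fderiv ℝ ψ₁ p w‖ with hL
  have hL0 : 0 < L := norm_pos_iff.2 (fderiv_ne_zero hp₁ hp hw)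
  have h1 : HasFDerivAt (fun w' : N => G11 Φ ψ₁ (p, w'))
      ((fderiv ℝ (G11 Φ ψ₁) (p, w)).comp (ContinuousLinearMap.inr ℝ N N)) w := by
    have h2 : HasFDerivAt (G11 Φ ψ₁) (fderiv ℝ (G11 Φ ψ₁) (p, w)) (p, w) :=
      ((contDiffAt_G11 h hp₁ (y := (p, w)) hp).differentiableAt (by simp)).hasFDerivAt
    exact h2.comp w (hasFDerivAt_prodMk_right p w)
  have h3 : HasFDerivAt (fun w' : N => (Φ L (ψ₁ p, L⁻¹ • fderiv ℝ ψ₁ p w')).1)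
      ((ContinuousLinearMap.fst ℝ E E).comp ((fderiv ℝ (Φ L) (ψ₁ p, L⁻¹ • fderiv ℝ ψ₁ p w)).comp
        ((0 : N →L[ℝ] E).prod (L⁻¹ • fderiv ℝ ψ₁ p)))) w := by
    have h4 : HasFDerivAt (fun w' : N => ((ψ₁ p, L⁻¹ • fderiv ℝ ψ₁ p w') : E × E))
        ((0 : N →L[ℝ] E).prod (L⁻¹ • fderiv ℝ ψ₁ p)) w :=
      (hasFDerivAt_const (ψ₁ p) w).prodMk ((fderiv ℝ ψ₁ p).hasFDerivAt.const_smul L⁻¹)
    have h5 : HasFDerivAt (Φ L) (fderiv ℝ (Φ L) (ψ₁ p, L⁻¹ • fderiv ℝ ψ₁ p w))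
        (ψ₁ p, L⁻¹ • fderiv ℝ ψ₁ p w) :=
      (h.flow.differentiable h.vf L _).hasFDerivAt
    exact (ContinuousLinearMap.fst ℝ E E).hasFDerivAt.comp w (h5.comp w h4)
  have h6 : (fun w' : N => G11 Φ ψ₁ (p, w')) =ᶠ[𝓝 w]
      fun w' : N => (Φ L (ψ₁ p, L⁻¹ • fderiv ℝ ψ₁ p w')).1 := by
    have h7 : ∀ᶠ w' in 𝓝 w, ‖fderiv ℝ ψ₁ p w'‖ < 2 * L := by
      refine ((fderiv ℝ ψ₁ p).continuous.norm.continuousAt).eventually_lt_const ?_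
      show ‖fderiv ℝ ψ₁ p w‖ < 2 * L
      rw [← hL]; linarith
    filter_upwards [h7] with w' hw'
    have h8 := (h.Geo_eq (hp₁.mem_TSet h.sub hp w') hL0 hw'.le 1).1
    rw [mul_one] at h8
    exact h8
  have h9 := h1.unique (h3.congr_of_eventuallyEq h6)
  exact congrArg (fun T : N →L[ℝ] E => T b) h9

theorem ndeg_of_cfg' (h : GFlow F S A K K₂ Φ) (hp₁ : Patch S Ω₁ ψ₁ P₁ W₁) {x : N × N} {w : N}
    (hc : Cfg Φ Ω₁ Ω₂ ψ₁ ψ₂ x w) (hw : w ≠ 0) :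
    Pool.Agent.H77.SN.NDeg Φ S (rp Φ ψ₁ x w).1 ‖fderiv ℝ ψ₁ x.1 w‖ := by
  obtain ⟨hx, -, -, hnd⟩ := hc
  intro ξ hξ h0
  have hxS : ψ₁ x.1 ∈ S := fst_mem_TSet (hp₁.mem_TSet h.sub hx w)
  have h1 : (ψ₁ x.1, ξ) ∈ TSet S := (mem_TS h.sub hxS).1 hξ
  set L : ℝ := ‖fderiv ℝ ψ₁ x.1 w‖ with hL
  have hL0 : 0 < L := norm_pos_iff.2 (fderiv_ne_zero hp₁ hx hw)
  have h2 := (hp₁.of_TSet (hp₁.maps _ hx) h1).2.2
  rw [hp₁.left _ hx] at h2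
  have h3 : L • P₁ ξ = 0 := by
    refine hnd (a₁ := L • P₁ ξ) (a₂ := 0) ?_
    show fderiv ℝ (G11 Φ ψ₁) (x.1, w) (0, L • P₁ ξ) = fderiv ℝ (G11 Φ ψ₁) (x.1, w) (0, 0)
    rw [fderiv_G11_snd h hp₁ hx hw, map_smul, ← hL, smul_smul, inv_mul_cancel₀ hL0.ne', one_smul,
      h2]
    have h4 : (((0 : N), (0 : N)) : N × N) = 0 := rfl
    rw [h4, map_zero]
    exact h0
  have h5 : P₁ ξ = 0 := (smul_eq_zero.1 h3).resolve_left hL0.ne'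
  rw [← h2, h5, map_zero]

end Pool.Agent.H96.SF
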