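import Mathlib

/-!
# The Baire theorem for a relatively open subset of a closed set; pigeonhole
-/

set_option autoImplicit false

open scoped Topology
open Set Filter

namespace Pool.Agent.H96.SF

/-- Baire: if countably many closed sets cover a nonempty relatively open part of a closed set, then
one of them contains a nonempty relatively open part. -/
theorem baire_closed {Z : Type*} [MetricSpace Z] [CompleteSpace Z] {R : Set Z}
    (hR : IsClosed R) {U : Set Z} (hU : IsOpen U) (hne : (R ∩ U).Nonempty) {ι : Type*}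
    [Countable ι] {C : ι → Set Z} (hC : ∀ i, IsClosed (C i)) (hcov : R ∩ U ⊆ ⋃ i, C i) :
    ∃ i, ∃ V : Set Z, IsOpen V ∧ V ⊆ U ∧ (R ∩ V).Nonempty ∧ R ∩ V ⊆ C i := by
  have : CompleteSpace R := hR.completeSpace_coe
  let D : Option ι → Set R := fun i => match i with
    | none => {q : R | (q : Z) ∉ U}
    | some i => {q : R | (q : Z) ∈ C i}
  have hD : ∀ i, IsClosed (D i) := by
    intro i
    cases i with
    | none => exact (hU.isClosed_compl).preimage continuous_subtype_val
    | some i => exact (hC i).preimage continuous_subtype_val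
  have hDU : ⋃ i, D i = univ := by
    rw [eq_univ_iff_forall]
    intro q
    by_cases hq : (q : Z) ∈ U
    · obtain ⟨i, hi⟩ := mem_iUnion.1 (hcov ⟨q.2, hq⟩)
      exact mem_iUnion.2 ⟨some i, hi⟩
    · exact mem_iUnion.2 ⟨none, hq⟩
  have hdense := dense_iUnion_interior_of_closed hD hDU
  obtain ⟨z, hzR, hzU⟩ := hne
  have hUo : IsOpen {q : R | (q : Z) ∈ U} := hU.preimage continuous_subtype_val
  obtain ⟨q, hqU, hq⟩ := hdense.inter_open_nonempty _ hUo ⟨⟨z, hzR⟩, hzU⟩
  obtain ⟨i, hi⟩ := mem_iUnion.1 hq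
  cases i with
  | none => exact absurd hqU (interior_subset hi)
  | some i =>
    obtain ⟨V, hVo, hV⟩ := isOpen_induced_iff.1 (isOpen_interior (s := D (some i)))
    refine ⟨i, V ∩ U, hVo.inter hU, inter_subset_right, ⟨q, q.2, ?_, hqU⟩, ?_⟩
    · have h1 : q ∈ Subtype.val ⁻¹' V := by rw [hV]; exact hi
      exact h1
    · rintro y ⟨hyR, hyV, -⟩
      have h1 : (⟨y, hyR⟩ : R) ∈ Subtype.val ⁻¹' V := hyV
      rw [hV] at h1
      exact (interior_subset h1 : (⟨y, hyR⟩ : R) ∈ D (some i))

/-- Pigeonhole for infinitely many indices. -/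
theorem exists_freq {α : Type*} {s : Set α} (hs : s.Finite) {f : ℕ → α} {P : ℕ → Prop}
    (h : ∃ᶠ n in atTop, P n) (hf : ∀ n, P n → f n ∈ s) :
    ∃ a ∈ s, ∃ᶠ n in atTop, P n ∧ f n = a := by
  by_contra hcon
  push Not at hcon
  have h1 : ∀ᶠ n in atTop, ∀ a ∈ s, ¬ (P n ∧ f n = a) := by
    refine (eventually_all_finite hs).2 fun a ha => ?_
    filter_upwards [hcon a ha] with n hn hc
    exact hn hc.1 hc.2
  obtain ⟨n, hn, hP⟩ := (h.and_eventually h1).exists
  exact hP _ (hf n hn) ⟨hn, rfl⟩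

end Pool.Agent.H96.SF
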