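import Pool.Agent.H77.ND.Main

/-!
# Pairs of persistent classes of returns: definitions (section 2 of `db5e86_proof`)

`ends Φ ψ₁ ψ₂ x w` is the pair of unit vectors at the end points of the geodesic with data `w` which
joins `ψ₁ x.1` to `ψ₂ x.2`.  `Germ2` is a pair of smooth blocking points `ζ`, `ζ'` (both partial
derivatives of both are injective, and `(ζ, ζ')` is an immersion), and `Mem2` says that the geodesic
with data `w` passes persistently through both of them, first through `ζ'`, then through `ζ`, and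
that its direction in `ζ` is `ε` times the positive direction of `d_x ζ w` (in `ζ'`: `ε'`).
-/

set_option autoImplicit false

open scoped InnerProductSpace Topology ContDiff
open Set Filter

namespace Pool.Agent.H96.SF

open Pool.Agent.H91.GE hiding G1 G11 Nondeg Br exists_br cF smooth_cF Cfg mem_TSet_of_map
open Pool.Agent.H59.LV Pool.Agent.H59.ND Pool.Agent.H77.ND

variable {E F N : Type*} [NormedAddCommGroup E] [InnerProductSpace ℝ E] [FiniteDimensional ℝ E]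
  [NormedAddCommGroup F] [InnerProductSpace ℝ F] [FiniteDimensional ℝ F]
  [NormedAddCommGroup N] [NormedSpace ℝ N] [FiniteDimensional ℝ N]
  {S : Set E} {A : E × E → E} {K K₂ : NNReal} {Φ : ℝ → E × E → E × E}
  {Ω₁ Ω₂ : Set N} {ψ₁ ψ₂ : N → E} {P₁ P₂ : E →L[ℝ] N} {W₁ W₂ : Set E}

/-- The relation `R`. -/
def RR (Φ : ℝ → E × E → E × E) (S : Set E) : Set ((E × E) × (E × E)) :=
  {p | p.1 ∈ UT S ∧ p.2 ∈ UT S ∧ Leads Φ S p.1 p.2}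

/-- The unit vectors at the two ends of a geodesic. -/
noncomputable def ends (Φ : ℝ → E × E → E × E) (ψ₁ ψ₂ : N → E) (x : N × N) (w : N) :
    (E × E) × (E × E) :=
  ((ψ₁ x.1, ‖fderiv ℝ ψ₁ x.1 w‖⁻¹ • fderiv ℝ ψ₁ x.1 w),
    (ψ₂ x.2, ‖fderiv ℝ ψ₁ x.1 w‖⁻¹ • deriv (G1 Φ ψ₁ (x.1, w)) 1))

/-- A pair of smooth blocking points. -/
structure Germ2 (S : Set E) (Ω₁ Ω₂ : Set N) (O : Set (N × N)) (ζ ζ' : N × N → E) : Prop where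
  isOpen : IsOpen O
  mem : ∀ x ∈ O, x.1 ∈ Ω₁ ∧ x.2 ∈ Ω₂
  smooth : ContDiffOn ℝ ∞ ζ O
  smooth' : ContDiffOn ℝ ∞ ζ' O
  memS : ∀ x ∈ O, ζ x ∈ S
  memS' : ∀ x ∈ O, ζ' x ∈ S
  inj₁ : ∀ x ∈ O, ∀ b : N, fderiv ℝ ζ x (b, 0) = 0 → b = 0
  inj₂ : ∀ x ∈ O, ∀ b : N, fderiv ℝ ζ x (0, b) = 0 → b = 0
  inj₁' : ∀ x ∈ O, ∀ b : N, fderiv ℝ ζ' x (b, 0) = 0 → b = 0
  inj₂' : ∀ x ∈ O, ∀ b : N, fderiv ℝ ζ' x (0, b) = 0 → b = 0
  joint : ∀ x ∈ O, ∀ v : N × N, fderiv ℝ ζ x v = 0 → fderiv ℝ ζ' x v = 0 → v = 0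

/-- The nondegenerate geodesic with data `w` over `x` passes persistently through both blocking
points, with the signs `ε`, `ε'`. -/
def Mem2 (Φ : ℝ → E × E → E × E) (Ω₁ Ω₂ : Set N) (ψ₁ ψ₂ : N → E) (ζ ζ' : N × N → E) (ε ε' : ℝ)
    (x : N × N) (w : N) : Prop :=
  Cfg Φ Ω₁ Ω₂ ψ₁ ψ₂ x w ∧ w ≠ 0 ∧
  ∃ (O : Set (N × N)) (V : Set N) (κ : N × N → N) (θ θ' : N × N → ℝ),
    Lf Φ Ω₁ Ω₂ ψ₁ ψ₂ ζ O V κ θ ∧ Lf Φ Ω₁ Ω₂ ψ₁ ψ₂ ζ' O V κ θ' ∧ x ∈ O ∧ κ x = w ∧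
    (0 < θ' x ∧ θ' x < θ x ∧ θ x < 1) ∧
    (∃ a : ℝ, 0 < a ∧ fderiv ℝ ζ x (w, 0) = (ε * a) • deriv (G1 Φ ψ₁ (x.1, w)) (θ x)) ∧
    ∃ a : ℝ, 0 < a ∧ fderiv ℝ ζ' x (w, 0) = (ε' * a) • deriv (G1 Φ ψ₁ (x.1, w)) (θ' x)

end Pool.Agent.H96.SF
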