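import Pool.Agent.H96.SF.ClsDef

/-!
# Two blocking points of the same two geodesics form an immersion on a dense set
-/

set_option autoImplicit false

open scoped InnerProductSpace Topology ContDiff
open Set Filter

namespace Pool.Agent.H96.SF

open Pool.Agent.H91.GE hiding G1 G11 Nondeg Br exists_br cF smooth_cF Cfg mem_TSet_of_map
open Pool.Agent.H59.LV Pool.Agent.H59.ND Pool.Agent.H77.ND

variable {E F N : Type*} [NormedAddCommGroup E] [InnerProductSpace ℝ E] [FiniteDimensional ℝ E]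
  [NormedAddCommGroup F] [InnerProductSpace ℝ F] [FiniteDimensional ℝ F]
  [NormedAddCommGroup N] [NormedSpace ℝ N] [FiniteDimensional ℝ N]
  {S : Set E} {A : E × E → E} {K K₂ : NNReal} {Φ : ℝ → E × E → E × E}
  {Ω₁ Ω₂ : Set N} {ψ₁ ψ₂ : N → E} {P₁ P₂ : E →L[ℝ] N} {W₁ W₂ : Set E}

/-- The conditions for one family of connecting geodesics through two moving points. -/
structure Two (Φ : ℝ → E × E → E × E) (Ω₁ Ω₂ : Set N) (ψ₁ ψ₂ : N → E) (V : Set (N × N))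
    (κ : N × N → N) (θ θ' : N × N → ℝ) (ζ ζ' : N × N → E) : Prop where
  sκ : ContDiffOn ℝ ∞ κ V
  sθ : ContDiffOn ℝ ∞ θ V
  sθ' : ContDiffOn ℝ ∞ θ' V
  mem : ∀ x ∈ V, x.1 ∈ Ω₁ ∧ x.2 ∈ Ω₂
  last : ∀ x ∈ V, cF Φ ψ₁ κ x 1 = ψ₂ x.2
  cr : ∀ x ∈ V, cF Φ ψ₁ κ x (θ x) = ζ x
  cr' : ∀ x ∈ V, cF Φ ψ₁ κ x (θ' x) = ζ' x
  ne : ∀ x ∈ V, κ x ≠ 0
  lt : ∀ x ∈ V, θ' x < θ x

/-- If both moving points rest along a curve, then the geodesic slides along itself. -/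
theorem two_slide (h : GFlow F S A K K₂ Φ) (hsec : Secure S) (hp₁ : Patch S Ω₁ ψ₁ P₁ W₁)
    {V : Set (N × N)} (hV : IsOpen V)
    {κ : N × N → N} {θ θ' : N × N → ℝ} {ζ ζ' : N × N → E}
    (ht : Two Φ Ω₁ Ω₂ ψ₁ ψ₂ V κ θ θ' ζ ζ') {c : ℝ → N × N} {k : N × N} (hc0 : c 0 ∈ V)
    (hc : HasDerivAt c k 0) (hz : ∀ᶠ τ in 𝓝 (0 : ℝ), ζ (c τ) = ζ (c 0))
    (hz' : ∀ᶠ τ in 𝓝 (0 : ℝ), ζ' (c τ) = ζ' (c 0)) {r : ℝ} {e' : E}
    (he : HasDerivAt (fun τ => cF Φ ψ₁ κ (c τ) r) e' 0) :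
    ∃ a : ℝ, e' = a • deriv (cF Φ ψ₁ κ (c 0)) r := by
  have hV' : ∀ᶠ τ in 𝓝 (0 : ℝ), c τ ∈ V := hc.continuousAt.preimage_mem_nhds (hV.mem_nhds hc0)
  have hgeo : ∀ x ∈ V, IsGeo S (cF Φ ψ₁ κ x) := fun x hx => (isGeo_G1 h hp₁ (ht.mem x hx).1 _).1
  have hθd : DifferentiableAt ℝ (fun τ => θ (c τ)) 0 :=
    DifferentiableAt.comp (g := θ) (f := c) (0 : ℝ)
      ((contDiffAt_of_open hV ht.sθ hc0).differentiableAt (by simp)) hc.differentiableAt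
  have hθd' : DifferentiableAt ℝ (fun τ => θ' (c τ)) 0 :=
    DifferentiableAt.comp (g := θ') (f := c) (0 : ℝ)
      ((contDiffAt_of_open hV ht.sθ' hc0).differentiableAt (by simp)) hc.differentiableAt
  have hsm := (smooth_cF h hp₁ hV ht.sκ fun x hx => (ht.mem x hx).1).2
  have hdd : DifferentiableAt ℝ (fun y : (N × N) × ℝ => deriv (cF Φ ψ₁ κ y.1) y.2)
      (c 0, θ' (c 0)) :=
    ((hsm _ ⟨hc0, mem_univ _⟩).contDiffAt ((hV.prod isOpen_univ).mem_nhds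
      ⟨hc0, mem_univ _⟩)).differentiableAt (by simp)
  have hu : DifferentiableAt ℝ (fun τ => deriv (cF Φ ψ₁ κ (c τ)) (θ' (c τ))) 0 :=
    DifferentiableAt.comp (g := fun y : (N × N) × ℝ => deriv (cF Φ ψ₁ κ y.1) y.2)
      (f := fun τ => ((c τ, θ' (c τ)) : (N × N) × ℝ)) (0 : ℝ) hdd
      (hc.differentiableAt.prodMk hθd')
  have hX : ζ' (c 0) ∈ S := by rw [← ht.cr' _ hc0]; exact (hgeo _ hc0).mem _
  have hZ : ζ (c 0) ∈ S := by rw [← ht.cr _ hc0]; exact (hgeo _ hc0).mem _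
  have hu0 : deriv (cF Φ ψ₁ κ (c 0)) (θ' (c 0)) ≠ 0 := by
    refine (hgeo _ hc0).deriv_ne S ?_ _
    obtain ⟨-, -, g3⟩ := isGeo_G1 h hp₁ (ht.mem _ hc0).1 (κ (c 0))
    show deriv (G1 Φ ψ₁ ((c 0).1, κ (c 0))) 0 ≠ 0
    rw [g3]
    exact fderiv_ne_zero hp₁ (ht.mem _ hc0).1 (ht.ne _ hc0)
  have hrun : ∀ᶠ τ in 𝓝 (0 : ℝ), (ζ' (c 0), deriv (cF Φ ψ₁ κ (c τ)) (θ' (c τ))) ∈ TSet S ∧
      ∀ t, Geo Φ (ζ' (c 0)) (deriv (cF Φ ψ₁ κ (c τ)) (θ' (c τ))) t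
        = cF Φ ψ₁ κ (c τ) (θ' (c τ) + t) := by
    filter_upwards [hV', hz'] with τ h1 h2
    have h3 : cF Φ ψ₁ κ (c τ) (θ' (c τ)) = ζ' (c 0) := by rw [ht.cr' _ h1, h2]
    constructor
    · have h4 := (hgeo _ h1).mem_TSet (θ' (c τ))
      rw [h3] at h4
      exact h4
    · intro t
      have h4 := h.Geo_add (hgeo _ h1) (θ' (c τ)) 1 t
      rw [one_smul, one_mul, h3] at h4
      exact h4
  obtain ⟨l, hl, hl0, hlu⟩ := stay h hsec hX hZ hu (hrun.mono fun τ hτ => hτ.1) hu0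
    (θ := fun τ => θ (c τ) - θ' (c τ)) (hθd.continuousAt.sub hθd'.continuousAt) (by
      have := ht.lt _ hc0
      exact (sub_pos.2 this).ne') (by
      filter_upwards [hV', hz, hrun] with τ h1 h2 h3
      rw [h3.2, ← h2, ← ht.cr _ h1]
      congr 1; ring)
  have hT0 := hrun.self_of_nhds.1
  have h0 := hrun.self_of_nhds.2
  -- the point at time `r` on the fixed geodesic
  let ρ : ℝ → ℝ := fun τ => l τ * (r - θ' (c τ))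
  have hρ : DifferentiableAt ℝ ρ 0 := hl.mul ((differentiableAt_const r).sub hθd')
  have hρ0 : ρ 0 = r - θ' (c 0) := by
    show l 0 * (r - θ' (c 0)) = _
    rw [hl0, one_mul]
  have hfix : (fun τ => cF Φ ψ₁ κ (c τ) r) =ᶠ[𝓝 0]
      fun τ => cF Φ ψ₁ κ (c 0) (θ' (c 0) + ρ τ) := by
    filter_upwards [hlu, hrun] with τ h1 h2
    rw [← h0, ← h.Geo_smul hT0, ← h1, h2.2]
    congr 1; ring
  have hd : HasDerivAt (fun τ => cF Φ ψ₁ κ (c 0) (θ' (c 0) + ρ τ))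
      (deriv ρ 0 • deriv (cF Φ ψ₁ κ (c 0)) r) 0 := by
    have h1 : HasDerivAt (fun τ => θ' (c 0) + ρ τ) (deriv ρ 0) 0 := hρ.hasDerivAt.const_add _
    refine HasDerivAt.scomp (g₁ := cF Φ ψ₁ κ (c 0)) (h := fun τ => θ' (c 0) + ρ τ) (0 : ℝ) ?_ h1
    have h2 : θ' (c 0) + ρ 0 = r := by rw [hρ0]; ring
    rw [h2]
    exact (hgeo _ hc0).hasDerivAt r
  exact ⟨deriv ρ 0, he.unique (hd.congr_of_eventuallyEq hfix)⟩

/-- Two families through the same two moving points: the pair of points is an immersion somewhere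
in every open set. -/
theorem exists_joint (h : GFlow F S A K K₂ Φ) (hsec : Secure S) (hp₁ : Patch S Ω₁ ψ₁ P₁ W₁)
    (hp₂ : Patch S Ω₂ ψ₂ P₂ W₂) {V : Set (N × N)} (hV : IsOpen V) (hne : V.Nonempty)
    {κ κ₁ : N × N → N} {θ θ' θ₁ θ₁' : N × N → ℝ} {ζ ζ' : N × N → E}
    (hζ : ContDiffOn ℝ ∞ ζ V) (hζ' : ContDiffOn ℝ ∞ ζ' V)
    (ht : Two Φ Ω₁ Ω₂ ψ₁ ψ₂ V κ θ θ' ζ ζ') (ht₁ : Two Φ Ω₁ Ω₂ ψ₁ ψ₂ V κ₁ θ₁ θ₁' ζ ζ')
    (hi0 : ∀ x ∈ V, Indep (deriv (cF Φ ψ₁ κ x) 0) (deriv (cF Φ ψ₁ κ₁ x) 0))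
    (hi1 : ∀ x ∈ V, Indep (deriv (cF Φ ψ₁ κ x) 1) (deriv (cF Φ ψ₁ κ₁ x) 1)) :
    ∃ x ∈ V, ∀ v : N × N, fderiv ℝ ζ x v = 0 → fderiv ℝ ζ' x v = 0 → v = 0 := by
  by_contra hcon
  push Not at hcon
  have hfd : ∀ x ∈ V, fderiv ℝ (fun x => (ζ x, ζ' x)) x = (fderiv ℝ ζ x).prod (fderiv ℝ ζ' x) :=
    fun x hx => ((hasFDerivAt_of_open hV hζ hx).prodMk (hasFDerivAt_of_open hV hζ' hx)).fderiv
  obtain ⟨x₁, hx₁, c, k, hk0, hc0, hc, hev⟩ := exists_fiber_curve hV hne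
    (f := fun x => (ζ x, ζ' x)) (hζ.prodMk hζ') (by
      intro x hx
      obtain ⟨v, hv1, hv2, hv3⟩ := hcon x hx
      refine ⟨v, hv3, ?_⟩
      rw [hfd x hx]
      exact Prod.ext hv1 hv2)
  have hcV : c 0 ∈ V := by rw [hc0]; exact hx₁
  have hz : ∀ᶠ τ in 𝓝 (0 : ℝ), ζ (c τ) = ζ (c 0) := by
    filter_upwards [hev] with τ hτ
    rw [hc0]; exact congrArg Prod.fst hτ.2.2
  have hz' : ∀ᶠ τ in 𝓝 (0 : ℝ), ζ' (c τ) = ζ' (c 0) := by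
    filter_upwards [hev] with τ hτ
    rw [hc0]; exact congrArg Prod.snd hτ.2.2
  have hV' : ∀ᶠ τ in 𝓝 (0 : ℝ), c τ ∈ V := hc.continuousAt.preimage_mem_nhds (hV.mem_nhds hcV)
  have hc1 : HasDerivAt (fun τ => (c τ).1) k.1 0 := by
    have := (ContinuousLinearMap.fst ℝ N N).hasFDerivAt.comp_hasDerivAt (0 : ℝ) hc
    exact this
  have hc2 : HasDerivAt (fun τ => (c τ).2) k.2 0 := by
    have := (ContinuousLinearMap.snd ℝ N N).hasFDerivAt.comp_hasDerivAt (0 : ℝ) hc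
    exact this
  have d1 : HasDerivAt (fun τ => ψ₁ (c τ).1) (fderiv ℝ ψ₁ (c 0).1 k.1) 0 :=
    HasFDerivAt.comp_hasDerivAt (l := ψ₁) (f := fun τ => (c τ).1) (0 : ℝ)
      (hp₁.hasFDerivAt (ht.mem _ hcV).1) hc1
  have d2 : HasDerivAt (fun τ => ψ₂ (c τ).2) (fderiv ℝ ψ₂ (c 0).2 k.2) 0 :=
    HasFDerivAt.comp_hasDerivAt (l := ψ₂) (f := fun τ => (c τ).2) (0 : ℝ)
      (hp₂.hasFDerivAt (ht.mem _ hcV).2) hc2
  have e1 : ∀ {κ : N × N → N} {θ θ' : N × N → ℝ}, Two Φ Ω₁ Ω₂ ψ₁ ψ₂ V κ θ θ' ζ ζ' →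
      ∃ a : ℝ, fderiv ℝ ψ₁ (c 0).1 k.1 = a • deriv (cF Φ ψ₁ κ (c 0)) 0 := by
    intro κ θ θ' ht
    refine two_slide h hsec hp₁ hV ht hcV hc hz hz' (d1.congr_of_eventuallyEq ?_)
    filter_upwards [hV'] with τ hτ
    exact (isGeo_G1 h hp₁ (ht.mem _ hτ).1 (κ (c τ))).2.1
  have e2 : ∀ {κ : N × N → N} {θ θ' : N × N → ℝ}, Two Φ Ω₁ Ω₂ ψ₁ ψ₂ V κ θ θ' ζ ζ' →
      ∃ a : ℝ, fderiv ℝ ψ₂ (c 0).2 k.2 = a • deriv (cF Φ ψ₁ κ (c 0)) 1 := by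
    intro κ θ θ' ht
    refine two_slide h hsec hp₁ hV ht hcV hc hz hz' (d2.congr_of_eventuallyEq ?_)
    filter_upwards [hV'] with τ hτ
    exact ht.last _ hτ
  obtain ⟨a, ha⟩ := e1 ht
  obtain ⟨b, hb⟩ := e1 ht₁
  obtain ⟨a', ha'⟩ := e2 ht
  obtain ⟨b', hb'⟩ := e2 ht₁
  have g1 : k.1 = 0 := by
    by_contra hk1
    have h1 := hi0 _ hcV a b (by rw [← ha, hb])
    rw [h1.1, zero_smul] at ha
    exact fderiv_ne_zero hp₁ (ht.mem _ hcV).1 hk1 ha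
  have g2 : k.2 = 0 := by
    by_contra hk2
    have h1 := hi1 _ hcV a' b' (by rw [← ha', hb'])
    rw [h1.1, zero_smul] at ha'
    exact fderiv_ne_zero hp₂ (ht.mem _ hcV).2 hk2 ha'
  exact hk0 (Prod.ext g1 g2)

end Pool.Agent.H96.SF
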