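import Pool.Agent.H96.SF.ClsDef

/-!
# Sheets of crossings: countably many smooth germs contain all crossings of two geodesics
-/

set_option autoImplicit false

open scoped InnerProductSpace Topology ContDiff
open Set Filter

namespace Pool.Agent.H96.SF

open Pool.Agent.H91.GE hiding G1 G11 Nondeg Br exists_br cF smooth_cF Cfg mem_TSet_of_map
open Pool.Agent.H59.LV Pool.Agent.H59.ND Pool.Agent.H77.ND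

variable {E F N : Type*} [NormedAddCommGroup E] [InnerProductSpace ℝ E] [FiniteDimensional ℝ E]
  [NormedAddCommGroup F] [InnerProductSpace ℝ F] [FiniteDimensional ℝ F]
  [NormedAddCommGroup N] [NormedSpace ℝ N] [FiniteDimensional ℝ N]
  {S : Set E} {A : E × E → E} {K K₂ : NNReal} {Φ : ℝ → E × E → E × E}
  {Ω₁ Ω₂ : Set N} {ψ₁ ψ₂ : N → E} {P₁ P₂ : E →L[ℝ] N} {W₁ W₂ : Set E}

/-- Two branches and the smooth family of pairs of times which contains their crossings. -/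
structure Sheet (Φ : ℝ → E × E → E × E) (Ω₁ Ω₂ : Set N) (ψ₁ ψ₂ : N → E) where
  O₀ : Set (N × N)
  V₀ : Set N
  κ₀ : N × N → N
  O₁ : Set (N × N)
  V₁ : Set N
  κ₁ : N × N → N
  O : Set (N × N)
  V : Set (ℝ × ℝ)
  σ : N × N → ℝ × ℝ
  br₀ : Br Φ Ω₁ Ω₂ ψ₁ ψ₂ O₀ V₀ κ₀
  br₁ : Br Φ Ω₁ Ω₂ ψ₁ ψ₂ O₁ V₁ κ₁
  cr : Cr (cF Φ ψ₁ κ₀) (cF Φ ψ₁ κ₁) O V σ
  sub₀ : O ⊆ O₀
  sub₁ : O ⊆ O₁

/-- The moving crossing point. -/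
noncomputable def Sheet.ζ (s : Sheet Φ Ω₁ Ω₂ ψ₁ ψ₂) : N × N → E :=
  fun x => cF Φ ψ₁ s.κ₀ x (s.σ x).1

/-- The configurations covered by a sheet. -/
def Sheet.dom (s : Sheet Φ Ω₁ Ω₂ ψ₁ ψ₂) : Set ((N × N) × ((N × N) × (ℝ × ℝ))) :=
  {b | b.1 ∈ s.O ∧ (b.2.1.1 ∈ s.V₀ ∧ b.2.1.2 ∈ s.V₁) ∧ b.2.2 ∈ s.V}

/-- Two nondegenerate connecting geodesics with a common point. -/
def Cross (Φ : ℝ → E × E → E × E) (Ω₁ Ω₂ : Set N) (ψ₁ ψ₂ : N → E) :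
    Set ((N × N) × ((N × N) × (ℝ × ℝ))) :=
  {b | Cfg Φ Ω₁ Ω₂ ψ₁ ψ₂ b.1 b.2.1.1 ∧ Cfg Φ Ω₁ Ω₂ ψ₁ ψ₂ b.1 b.2.1.2 ∧
    G1 Φ ψ₁ (b.1.1, b.2.1.1) b.2.2.1 = G1 Φ ψ₁ (b.1.1, b.2.1.2) b.2.2.2 ∧
    Indep (deriv (G1 Φ ψ₁ (b.1.1, b.2.1.1)) b.2.2.1) (deriv (G1 Φ ψ₁ (b.1.1, b.2.1.2)) b.2.2.2)}

theorem Sheet.isOpen_dom (s : Sheet Φ Ω₁ Ω₂ ψ₁ ψ₂) : IsOpen s.dom := by
  have f1 : Continuous fun b : (N × N) × ((N × N) × (ℝ × ℝ)) => b.2.1.1 := by fun_prop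
  have f2 : Continuous fun b : (N × N) × ((N × N) × (ℝ × ℝ)) => b.2.1.2 := by fun_prop
  have f3 : Continuous fun b : (N × N) × ((N × N) × (ℝ × ℝ)) => b.2.2 := by fun_prop
  exact (s.cr.isOpen.preimage continuous_fst).inter (((s.br₀.V_open.preimage f1).inter
    (s.br₁.V_open.preimage f2)).inter (s.cr.V_open.preimage f3))

theorem exists_sheet (hdim : Module.finrank ℝ E = Module.finrank ℝ F + Module.finrank ℝ N)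
    (h : GFlow F S A K K₂ Φ) (hp₁ : Patch S Ω₁ ψ₁ P₁ W₁) (hc₂ : Patch S Ω₂ ψ₂ P₂ W₂)
    {b : (N × N) × ((N × N) × (ℝ × ℝ))} (hb : b ∈ Cross Φ Ω₁ Ω₂ ψ₁ ψ₂) :
    ∃ s : Sheet Φ Ω₁ Ω₂ ψ₁ ψ₂, b ∈ s.dom := by
  obtain ⟨x, ⟨w₀, w₁⟩, s₀, s₁⟩ := b
  obtain ⟨c₀, c₁, he, hi⟩ := hb
  simp only at c₀ c₁ he hi
  obtain ⟨O0, V0, κ0, b0, hx0, hw0, k0⟩ := exists_br h hp₁ hc₂ c₀.1 c₀.2.1 c₀.2.2.1 c₀.2.2.2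
  obtain ⟨O1, V1, κ1, b1, hx1, hw1, k1⟩ := exists_br h hp₁ hc₂ c₁.1 c₁.2.1 c₁.2.2.1 c₁.2.2.2
  obtain ⟨O', V', σ, hsub, cr, hx', hs', hσ⟩ := exists_cr hdim h hp₁ (b0.isOpen.inter b1.isOpen)
    (b0.smooth.mono inter_subset_left) (b1.smooth.mono inter_subset_right)
    (fun y hy => (b0.mem y hy.1).1) ⟨hx0, hx1⟩ (s₀ := (s₀, s₁)) (by
      show G1 Φ ψ₁ (x.1, κ0 x) s₀ = G1 Φ ψ₁ (x.1, κ1 x) s₁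
      rw [k0, k1, he]) (by
      show Indep (deriv (G1 Φ ψ₁ (x.1, κ0 x)) s₀) (deriv (G1 Φ ψ₁ (x.1, κ1 x)) s₁)
      rw [k0, k1]; exact hi)
  exact ⟨⟨O0, V0, κ0, O1, V1, κ1, O', V', σ, b0, b1, cr, fun y hy => (hsub hy).1,
    fun y hy => (hsub hy).2⟩, hx', ⟨hw0, hw1⟩, hs'⟩

/-- Countably many sheets cover all crossings. -/
theorem exists_sheets (hdim : Module.finrank ℝ E = Module.finrank ℝ F + Module.finrank ℝ N)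
    (h : GFlow F S A K K₂ Φ) (hp₁ : Patch S Ω₁ ψ₁ P₁ W₁) (hc₂ : Patch S Ω₂ ψ₂ P₂ W₂) :
    ∃ T : Set (Sheet Φ Ω₁ Ω₂ ψ₁ ψ₂), T.Countable ∧
      ∀ b ∈ Cross Φ Ω₁ Ω₂ ψ₁ ψ₂, ∃ s ∈ T, b ∈ s.dom := by
  classical
  have hex : ∀ b : Cross Φ Ω₁ Ω₂ ψ₁ ψ₂, ∃ s : Sheet Φ Ω₁ Ω₂ ψ₁ ψ₂,
      (b : (N × N) × ((N × N) × (ℝ × ℝ))) ∈ s.dom := fun b => exists_sheet hdim h hp₁ hc₂ b.2
  choose g hg using hex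
  have hcov := TopologicalSpace.countable_cover_nhds
    (f := fun b : Cross Φ Ω₁ Ω₂ ψ₁ ψ₂ => Subtype.val ⁻¹' (g b).dom) fun b =>
      ((g b).isOpen_dom.preimage continuous_subtype_val).mem_nhds (hg b)
  obtain ⟨t, ht, htu⟩ := hcov
  refine ⟨g '' t, ht.image g, fun b hb => ?_⟩
  have h1 : (⟨b, hb⟩ : Cross Φ Ω₁ Ω₂ ψ₁ ψ₂) ∈ ⋃ x ∈ t, Subtype.val ⁻¹' (g x).dom := by
    rw [htu]; exact mem_univ _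
  obtain ⟨c, hc, hbc⟩ := mem_iUnion₂.1 h1
  exact ⟨g c, mem_image_of_mem g hc, hbc⟩

/-- The configurations in the domain of a sheet lie on the sheet. -/
theorem Sheet.eq_of_mem (s : Sheet Φ Ω₁ Ω₂ ψ₁ ψ₂) {x : N × N} {w₀ w₁ : N} {s₀ s₁ : ℝ}
    (hb : (x, ((w₀, w₁), (s₀, s₁))) ∈ Cross Φ Ω₁ Ω₂ ψ₁ ψ₂) (hd : (x, ((w₀, w₁), (s₀, s₁))) ∈ s.dom) :
    s.κ₀ x = w₀ ∧ s.κ₁ x = w₁ ∧ s.σ x = (s₀, s₁) := by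
  obtain ⟨c₀, c₁, he, hi⟩ := hb
  obtain ⟨h1, ⟨h2, h3⟩, h4⟩ := hd
  simp only at c₀ c₁ he hi h1 h2 h3 h4
  have u1 : w₀ = s.κ₀ x := s.br₀.uniq x (s.sub₀ h1) w₀ h2 c₀.2.2.1
  have u2 : w₁ = s.κ₁ x := s.br₁.uniq x (s.sub₁ h1) w₁ h3 c₁.2.2.1
  have u3 : (s₀, s₁) = s.σ x := by
    refine s.cr.uniq x h1 _ h4 ?_
    show G1 Φ ψ₁ (x.1, s.κ₀ x) s₀ = G1 Φ ψ₁ (x.1, s.κ₁ x) s₁
    rw [← u1, ← u2]; exact he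
  exact ⟨u1.symm, u2.symm, u3.symm⟩

theorem Sheet.smooth_ζ (h : GFlow F S A K K₂ Φ) (hp₁ : Patch S Ω₁ ψ₁ P₁ W₁)
    (s : Sheet Φ Ω₁ Ω₂ ψ₁ ψ₂) : ContDiffOn ℝ ∞ s.ζ s.O := by
  have q1 := (smooth_cF h hp₁ s.br₀.isOpen s.br₀.smooth fun y hy => (s.br₀.mem y hy).1).1
  exact q1.comp (contDiffOn_id.prodMk s.cr.smooth.fst) fun y hy => ⟨s.sub₀ hy, mem_univ _⟩

theorem Sheet.mem_S (h : GFlow F S A K K₂ Φ) (hp₁ : Patch S Ω₁ ψ₁ P₁ W₁)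
    (s : Sheet Φ Ω₁ Ω₂ ψ₁ ψ₂) {x : N × N} (hx : x ∈ s.O) : s.ζ x ∈ S :=
  mem_G1 h hp₁ (s.br₀.mem x (s.sub₀ hx)).1 _ _

/-- The first branch of a sheet. -/
theorem Sheet.lf₀ (s : Sheet Φ Ω₁ Ω₂ ψ₁ ψ₂) :
    Lf Φ Ω₁ Ω₂ ψ₁ ψ₂ s.ζ s.O s.V₀ s.κ₀ fun y => (s.σ y).1 :=
  ⟨br_mono s.br₀ s.cr.isOpen s.sub₀, s.cr.smooth.fst, fun _ _ => rfl⟩

/-- All geodesics through a crossing point on a sheet form leaves with the point of the sheet. -/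
theorem Sheet.exists_lf (hdim : Module.finrank ℝ E = Module.finrank ℝ F + Module.finrank ℝ N)
    (h : GFlow F S A K K₂ Φ) (hp₁ : Patch S Ω₁ ψ₁ P₁ W₁) (hc₂ : Patch S Ω₂ ψ₂ P₂ W₂)
    (sh : Sheet Φ Ω₁ Ω₂ ψ₁ ψ₂)
    {x : N × N} (hgood : ∀ y, Tri Φ Ω₁ Ω₂ ψ₁ ψ₂ x y → GoodT Φ ψ₁ ψ₂ x y) {w₀ w₁ : N}
    {s₀ s₁ : ℝ} (hb : (x, ((w₀, w₁), (s₀, s₁))) ∈ Cross Φ Ω₁ Ω₂ ψ₁ ψ₂)
    (hd : (x, ((w₀, w₁), (s₀, s₁))) ∈ sh.dom) {w : N} {s : ℝ} (cw : Cfg Φ Ω₁ Ω₂ ψ₁ ψ₂ x w)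
    (hzs : G1 Φ ψ₁ (x.1, w) s = sh.ζ x)
    (hind : Indep (deriv (G1 Φ ψ₁ (x.1, w₀)) s₀) (deriv (G1 Φ ψ₁ (x.1, w)) s)) :
    ∃ (O : Set (N × N)) (V : Set N) (κ : N × N → N) (θ : N × N → ℝ),
      Lf Φ Ω₁ Ω₂ ψ₁ ψ₂ sh.ζ O V κ θ ∧ x ∈ O ∧ κ x = w ∧ θ x = s := by
  obtain ⟨k0, k1, hσ⟩ := sh.eq_of_mem hb hd
  obtain ⟨c₀, c₁, he, hi⟩ := hb
  obtain ⟨hx', ⟨hw0, hw1⟩, hs'⟩ := hd
  simp only at c₀ c₁ he hi hx' hw0 hw1 hs'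
  have hz : G1 Φ ψ₁ (x.1, w₀) s₀ = sh.ζ x := by
    show _ = G1 Φ ψ₁ (x.1, sh.κ₀ x) (sh.σ x).1
    rw [k0, hσ]
  obtain ⟨O2, V2, κ2, b2, hx2, hw2, k2⟩ := exists_br h hp₁ hc₂ cw.1 cw.2.1 cw.2.2.1 cw.2.2.2
  obtain ⟨O'', V'', τ, hsub2, cr2, hx'', hs'', hτ⟩ := exists_cr hdim h hp₁
    (sh.br₀.isOpen.inter b2.isOpen)
    (sh.br₀.smooth.mono inter_subset_left) (b2.smooth.mono inter_subset_right)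
    (fun y hy => (sh.br₀.mem y hy.1).1) ⟨sh.sub₀ hx', hx2⟩ (s₀ := (s₀, s)) (by
      show G1 Φ ψ₁ (x.1, sh.κ₀ x) s₀ = G1 Φ ψ₁ (x.1, κ2 x) s
      rw [k0, k2, hz, hzs]) (by
      show Indep (deriv (G1 Φ ψ₁ (x.1, sh.κ₀ x)) s₀) (deriv (G1 Φ ψ₁ (x.1, κ2 x)) s)
      rw [k0, k2]; exact hind)
  have htri : Tri Φ Ω₁ Ω₂ ψ₁ ψ₂ x ((w₀, w₁, w), (s₀, s₁, s)) :=
    ⟨c₀, c₁, cw, he, by rw [hz, hzs], hi, hind⟩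
  have hg := hgood _ htri
  set M : Set ((N × N × N) × (ℝ × ℝ × ℝ)) :=
    {y | (y.1.1 ∈ sh.V₀ ∧ y.1.2.1 ∈ sh.V₁ ∧ y.1.2.2 ∈ V2) ∧
    ((y.2.1, y.2.2.1) ∈ sh.V ∧ (y.2.1, y.2.2.2) ∈ V'')} with hM
  have hMo : IsOpen M := by
    have f1 : Continuous fun b : (N × N × N) × (ℝ × ℝ × ℝ) => b.1.1 := by fun_prop
    have f2 : Continuous fun b : (N × N × N) × (ℝ × ℝ × ℝ) => b.1.2.1 := by fun_prop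
    have f3 : Continuous fun b : (N × N × N) × (ℝ × ℝ × ℝ) => b.1.2.2 := by fun_prop
    have f4 : Continuous fun b : (N × N × N) × (ℝ × ℝ × ℝ) => (b.2.1, b.2.2.1) := by fun_prop
    have f5 : Continuous fun b : (N × N × N) × (ℝ × ℝ × ℝ) => (b.2.1, b.2.2.2) := by fun_prop
    exact ((sh.br₀.V_open.preimage f1).inter ((sh.br₁.V_open.preimage f2).inter
      (b2.V_open.preimage f3))).inter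
      ((sh.cr.V_open.preimage f4).inter (cr2.V_open.preimage f5))
  have hyM : ((w₀, w₁, w), (s₀, s₁, s)) ∈ M := ⟨⟨hw0, hw1, hw2⟩, hs', hs''⟩
  have hag : ∀ᶠ x' in 𝓝 x, (sh.σ x').1 = (τ x').1 ∧
      cF Φ ψ₁ sh.κ₀ x' (τ x').1 = cF Φ ψ₁ κ2 x' (τ x').2 := by
    filter_upwards [hg M (hMo.mem_nhds hyM), sh.cr.isOpen.mem_nhds hx', cr2.isOpen.mem_nhds hx'']
      with x' h1 h2 h3
    obtain ⟨⟨⟨v1, v2, v3⟩, t1, t2, t3⟩, ⟨⟨n1, n2, n3⟩, n4, n5⟩, q1, q2, q3, q4, q5⟩ := h1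
    simp only at n1 n2 n3 n4 n5 q1 q2 q3 q4 q5
    have u1 : v1 = sh.κ₀ x' := sh.br₀.uniq x' (sh.sub₀ h2) v1 n1 q1
    have u2 : v2 = sh.κ₁ x' := sh.br₁.uniq x' (sh.sub₁ h2) v2 n2 q2
    have u3 : v3 = κ2 x' := b2.uniq x' (hsub2 h3).2 v3 n3 q3
    have g1 : cF Φ ψ₁ sh.κ₀ x' t1 = cF Φ ψ₁ sh.κ₁ x' t2 := by
      show G1 Φ ψ₁ (x'.1, sh.κ₀ x') t1 = G1 Φ ψ₁ (x'.1, sh.κ₁ x') t2
      rw [← u1, ← u2]; exact q4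
    have g2 : cF Φ ψ₁ sh.κ₀ x' t1 = cF Φ ψ₁ κ2 x' t3 := by
      show G1 Φ ψ₁ (x'.1, sh.κ₀ x') t1 = G1 Φ ψ₁ (x'.1, κ2 x') t3
      rw [← u1, ← u3]; exact q5
    have u4 : (t1, t2) = sh.σ x' := sh.cr.uniq x' h2 (t1, t2) n4 g1
    have u5 : (t1, t3) = τ x' := cr2.uniq x' h3 (t1, t3) n5 g2
    rw [← u4, ← u5]
    exact ⟨rfl, g2⟩
  obtain ⟨D, hD, hDo, hxD⟩ := mem_nhds_iff.1 hag
  have hDO : D ∩ O'' ⊆ O2 := fun y hy => (hsub2 hy.2).2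
  refine ⟨D ∩ O'', V2, κ2, fun y => (τ y).2, ⟨br_mono b2 (hDo.inter cr2.isOpen) hDO,
    cr2.smooth.snd.mono inter_subset_right, fun y hy => ?_⟩, ⟨hxD, hx''⟩, k2,
    congrArg Prod.snd hτ⟩
  obtain ⟨r1, r2⟩ := hD hy.1
  show cF Φ ψ₁ κ2 y (τ y).2 = cF Φ ψ₁ sh.κ₀ y (sh.σ y).1
  rw [r1]; exact r2.symm

end Pool.Agent.H96.SF
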