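import Pool.Agent.H96.SF.Baire
import Pool.Agent.H96.SF.Sheet
import Pool.Agent.H96.SF.Joint
import Pool.Agent.H91.SF.RetA

/-!
# Over generic pairs every return is a limit of exact returns of one pair of sheets
-/

set_option autoImplicit false

open scoped InnerProductSpace Topology ContDiff
open Set Filter

namespace Pool.Agent.H96.SF

open Pool.Agent.H91.GE hiding G1 G11 Nondeg Br exists_br cF smooth_cF Cfg mem_TSet_of_map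
open Pool.Agent.H59.LV Pool.Agent.H59.ND Pool.Agent.H77.ND
open Pool.Agent.H91.SF (rp CR rp_eq)

variable {E F N : Type*} [NormedAddCommGroup E] [InnerProductSpace ℝ E] [FiniteDimensional ℝ E]
  [NormedAddCommGroup F] [InnerProductSpace ℝ F] [FiniteDimensional ℝ F]
  [NormedAddCommGroup N] [NormedSpace ℝ N] [FiniteDimensional ℝ N]
  {S : Set E} {A : E × E → E} {K K₂ : NNReal} {Φ : ℝ → E × E → E × E}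
  {Ω₁ Ω₂ : Set N} {ψ₁ ψ₂ : N → E} {P₁ P₂ : E →L[ℝ] N} {W₁ W₂ : Set E}

/-- Two leaves with the same geodesic at `x` have the same branch near `x`. -/
theorem lf_same {ζ ζ' : N × N → E} {O O' : Set (N × N)} {V V' : Set N} {κ κ' : N × N → N}
    {θ θ' : N × N → ℝ} (h0 : Lf Φ Ω₁ Ω₂ ψ₁ ψ₂ ζ O V κ θ) (h1 : Lf Φ Ω₁ Ω₂ ψ₁ ψ₂ ζ' O' V' κ' θ')
    {x : N × N} (hx : x ∈ O) (hx' : x ∈ O') (he : κ x = κ' x) :
    ∃ O'' : Set (N × N), x ∈ O'' ∧ Lf Φ Ω₁ Ω₂ ψ₁ ψ₂ ζ O'' V κ θ ∧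
      Lf Φ Ω₁ Ω₂ ψ₁ ψ₂ ζ' O'' V κ θ' := by
  set O'' : Set (N × N) := O' ∩ (O ∩ κ ⁻¹' V') with hO''
  have hO''o : IsOpen O'' := h1.isOpen.inter
    (h0.smooth.continuousOn.isOpen_inter_preimage h0.isOpen h1.V_open)
  have hsub : O'' ⊆ O := fun y hy => hy.2.1
  have hsub' : O'' ⊆ O' := fun y hy => hy.1
  have hk : ∀ y ∈ O'', κ y = κ' y := fun y hy =>
    h1.uniq y hy.1 (κ y) hy.2.2 (h0.mem y hy.2.1).2.2.2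
  refine ⟨O'', ⟨hx', hx, ?_⟩, ⟨br_mono h0.toBr hO''o hsub, h0.smooth_θ.mono hsub,
    fun y hy => h0.cross y (hsub hy)⟩, ⟨br_mono h0.toBr hO''o hsub, h1.smooth_θ.mono hsub',
    fun y hy => ?_⟩⟩
  · show κ x ∈ V'
    rw [he]; exact (h1.mem x hx').2.2.1
  · rw [← h1.cross y (hsub' hy)]
    show G1 Φ ψ₁ (y.1, κ y) (θ' y) = G1 Φ ψ₁ (y.1, κ' y) (θ' y)
    rw [hk y hy]

/-- A leaf gives a class return. -/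
theorem cr_of_lf (h : GFlow F S A K K₂ Φ) (hp₁ : Patch S Ω₁ ψ₁ P₁ W₁) (hp₂ : Patch S Ω₂ ψ₂ P₂ W₂)
    {ζ : N × N → E} {O : Set (N × N)} {V : Set N} {κ : N × N → N} {θ : N × N → ℝ}
    (hl : Lf Φ Ω₁ Ω₂ ψ₁ ψ₂ ζ O V κ θ) {x : N × N} (hx : x ∈ O) (hζ : DifferentiableAt ℝ ζ x) {w : N}
    (hκ : κ x = w) (hc : Cfg Φ Ω₁ Ω₂ ψ₁ ψ₂ x w) (hw : w ≠ 0) (h0 : 0 < θ x) (h1 : θ x < 1) :
    ∃ a : ℝ, CR Φ Ω₁ Ω₂ ψ₁ ψ₂ ζ x w a := by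
  obtain ⟨a, ha⟩ := lf_first h hp₁ hp₂ hl hx hζ (1, 0)
  simp only [one_smul, zero_smul] at ha
  rw [hκ] at ha
  exact ⟨a, hc, hw, O, V, κ, θ, hl, hx, hκ, h0, h1, ha⟩

/-- Both partial derivatives of the point of a sheet are injective at a generic pair. -/
theorem inj_of_gen (hdim : Module.finrank ℝ E = Module.finrank ℝ F + Module.finrank ℝ N)
    (h : GFlow F S A K K₂ Φ) (hp₁ : Patch S Ω₁ ψ₁ P₁ W₁) (hp₂ : Patch S Ω₂ ψ₂ P₂ W₂)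
    {x : N × N} (hx : Gen Φ S Ω₁ Ω₂ ψ₁ ψ₂ x) {w₀ w₁ : N} {s₀ s₁ : ℝ}
    (sh : Sheet Φ Ω₁ Ω₂ ψ₁ ψ₂)
    (hb : (x, ((w₀, w₁), (s₀, s₁))) ∈ Cross Φ Ω₁ Ω₂ ψ₁ ψ₂)
    (hd : (x, ((w₀, w₁), (s₀, s₁))) ∈ sh.dom) (n₀ : w₀ ≠ 0) (n₁ : w₁ ≠ 0) (hne : w₀ ≠ w₁)
    (t₀ : 0 < s₀ ∧ s₀ < 1) (t₁ : 0 < s₁ ∧ s₁ < 1) :
    (∀ b : N, fderiv ℝ sh.ζ x (0, b) = 0 → b = 0) ∧
      (∀ b : N, fderiv ℝ sh.ζ x (b, 0) = 0 → b = 0) := by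
  obtain ⟨k0, k1, hσ⟩ := sh.eq_of_mem hb hd
  have hxO : x ∈ sh.O := hd.1
  have hb' := hb
  obtain ⟨c₀, c₁, he, hi⟩ := hb'
  simp only at c₀ c₁ he hi
  have hx1 : x.1 ∈ Ω₁ := c₀.1
  have hgeo0 : ∀ w : N, G1 Φ ψ₁ (x.1, w) 0 = ψ₁ x.1 := fun w => (isGeo_G1 h hp₁ hx1 w).2.1
  have hind : ∀ s s' : ℝ, G1 Φ ψ₁ (x.1, w₀) s = G1 Φ ψ₁ (x.1, w₁) s' →
      Indep (deriv (G1 Φ ψ₁ (x.1, w₀)) s) (deriv (G1 Φ ψ₁ (x.1, w₁)) s') := fun s s' he =>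
    indep_of_ne h hp₁ hx.loop hx.loop' hx1 c₀.2.2.1 c₁.2.2.1 n₀ n₁ hne he
  have hz : G1 Φ ψ₁ (x.1, w₁) s₁ = sh.ζ x := by
    show _ = G1 Φ ψ₁ (x.1, sh.κ₀ x) (sh.σ x).1
    rw [k0, hσ]; exact he.symm
  obtain ⟨O₁, V₁, κ₁, θ₁, l₁, hx₁, kk₁, th₁⟩ := sh.exists_lf hdim h hp₁ hp₂ hx.tri hb hd c₁ hz hi
  have th₀ : (fun y => (sh.σ y).1) x = s₀ := by
    show (sh.σ x).1 = s₀
    rw [hσ]
  have hp : Pair2 Φ Ω₁ Ω₂ ψ₁ ψ₂ x ((sh.κ₀ x, κ₁ x), ((fun y => (sh.σ y).1) x, θ₁ x)) := by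
    rw [k0, kk₁, th₀, th₁]
    exact ⟨⟨c₀, c₁⟩, he, ⟨t₀, t₁⟩, ⟨n₀, n₁⟩, hi, hind 0 0 (by rw [hgeo0, hgeo0]),
      hind 1 1 (by rw [c₀.2.2.1, c₁.2.2.1])⟩
  obtain ⟨O, hxO', -, -, hpp⟩ := pp_of_lf h hp₁ sh.lf₀ l₁ hxO hx₁ hp
  exact hx.pair _ hp O sh.κ₀ κ₁ _ θ₁ sh.ζ hpp hxO' rfl

/-- The continuity of the velocity of a branch. -/
theorem cd_branch (h : GFlow F S A K K₂ Φ) (hp₁ : Patch S Ω₁ ψ₁ P₁ W₁) {O : Set (N × N)}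
    {V : Set N} {κ : N × N → N} (hb : Br Φ Ω₁ Ω₂ ψ₁ ψ₂ O V κ) {x : N × N} (hx : x ∈ O) (t : ℝ) :
    ContinuousAt (fun x => deriv (cF Φ ψ₁ κ x) t) x := by
  have q1 := (smooth_cF h hp₁ hb.isOpen hb.smooth fun y hy => (hb.mem y hy).1).2
  have q2 : ContinuousAt (fun y : (N × N) × ℝ => deriv (cF Φ ψ₁ κ y.1) y.2) (x, t) :=
    ((q1 _ ⟨hx, mem_univ _⟩).contDiffAt ((hb.isOpen.prod isOpen_univ).mem_nhds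
      ⟨hx, mem_univ _⟩)).continuousAt
  exact ContinuousAt.comp (g := fun y : (N × N) × ℝ => deriv (cF Φ ψ₁ κ y.1) y.2)
    (f := fun x : N × N => ((x, t) : (N × N) × ℝ)) q2 (by fun_prop)

/-- Two leaves of the same geodesic give a family through two points near `x`. -/
theorem two_of_lf {ζ ζ' : N × N → E} {O : Set (N × N)} {V : Set N}
    {κ : N × N → N} {θ θ' : N × N → ℝ} (h0 : Lf Φ Ω₁ Ω₂ ψ₁ ψ₂ ζ O V κ θ)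
    (h1 : Lf Φ Ω₁ Ω₂ ψ₁ ψ₂ ζ' O V κ θ') {x : N × N} (hx : x ∈ O) (hne : κ x ≠ 0)
    (hlt : θ' x < θ x) : ∃ O' : Set (N × N), IsOpen O' ∧ x ∈ O' ∧ O' ⊆ O ∧
      Two Φ Ω₁ Ω₂ ψ₁ ψ₂ O' κ θ θ' ζ ζ' := by
  have hk : ContinuousAt κ x := (contDiffAt_of_open h0.isOpen h0.smooth hx).continuousAt
  have hθ : ContinuousAt θ x := (contDiffAt_of_open h0.isOpen h0.smooth_θ hx).continuousAt
  have hθ' : ContinuousAt θ' x := (contDiffAt_of_open h1.isOpen h1.smooth_θ hx).continuousAt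
  have e1 : ∀ᶠ y in 𝓝 x, y ∈ O := h0.isOpen.mem_nhds hx
  have hev : ∀ᶠ y in 𝓝 x, y ∈ O ∧ κ y ≠ 0 ∧ θ' y < θ y :=
    e1.and ((hk.eventually_ne hne).and (hθ'.eventually_lt hθ hlt))
  obtain ⟨O', hO', hO'o, hxO'⟩ := mem_nhds_iff.1 hev
  refine ⟨O', hO'o, hxO', fun y hy => (hO' hy).1, ?_⟩
  exact
    { sκ := h0.smooth.mono fun y hy => (hO' hy).1
      sθ := h0.smooth_θ.mono fun y hy => (hO' hy).1
      sθ' := h1.smooth_θ.mono fun y hy => (hO' hy).1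
      mem := fun y hy => ⟨(h0.mem y (hO' hy).1).1, (h0.mem y (hO' hy).1).2.1⟩
      last := fun y hy => (h0.mem y (hO' hy).1).2.2.2
      cr := fun y hy => h0.cross y (hO' hy).1
      cr' := fun y hy => h1.cross y (hO' hy).1
      ne := fun y hy => (hO' hy).2.1
      lt := fun y hy => (hO' hy).2.2 }

end Pool.Agent.H96.SF
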