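import Pool.Agent.H96.SF.Cover

/-!
# Over generic pairs every return is a limit of exact returns of one pair of sheets: main lemma
-/

set_option autoImplicit false

open scoped InnerProductSpace Topology ContDiff
open Set Filter

namespace Pool.Agent.H96.SF

open Pool.Agent.H91.GE hiding G1 G11 Nondeg Br exists_br cF smooth_cF Cfg mem_TSet_of_map
open Pool.Agent.H59.LV Pool.Agent.H59.ND Pool.Agent.H77.ND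
open Pool.Agent.H91.SF (rp CR rp_eq)

variable {E F N : Type*} [NormedAddCommGroup E] [InnerProductSpace ℝ E] [FiniteDimensional ℝ E]
  [NormedAddCommGroup F] [InnerProductSpace ℝ F] [FiniteDimensional ℝ F]
  [NormedAddCommGroup N] [NormedSpace ℝ N] [FiniteDimensional ℝ N]
  {S : Set E} {A : E × E → E} {K K₂ : NNReal} {Φ : ℝ → E × E → E × E}
  {Ω₁ Ω₂ : Set N} {ψ₁ ψ₂ : N → E} {P₁ P₂ : E →L[ℝ] N} {W₁ W₂ : Set E}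

/-- The exact returns over `x` in `O` of the two points `ζ`, `ζ'`, with signs `ε`, `ε'`. -/
def Cl (Φ : ℝ → E × E → E × E) (Ω₁ Ω₂ : Set N) (ψ₁ ψ₂ : N → E) (O : Set (N × N))
    (ζ ζ' : N × N → E) (ε ε' : ℝ) : Set ((E × E) × (E × E)) :=
  {q | ∃ x ∈ O, ∃ (w : N) (a a' : ℝ), q = rp Φ ψ₁ x w ∧ CR Φ Ω₁ Ω₂ ψ₁ ψ₂ ζ x w a ∧ 0 < ε * a ∧
    CR Φ Ω₁ Ω₂ ψ₁ ψ₂ ζ' x w a' ∧ 0 < ε' * a'}

/-- The derivative of the pair of points is injective. -/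
def Jn (ζ ζ' : N × N → E) (x : N × N) : Prop :=
  ∀ v : N × N, fderiv ℝ ζ x v = 0 → fderiv ℝ ζ' x v = 0 → v = 0

/-- Infinitely many geodesics over a generic pair through the same two points. -/
theorem exists_seq (h : GFlow F S A K K₂ Φ) (hsec : Secure S)
    (hp₁ : Patch S Ω₁ ψ₁ P₁ W₁) (hp₂ : Patch S Ω₂ ψ₂ P₂ W₂) {x : N × N} (hx1 : x.1 ∈ Ω₁)
    (hx2 : x.2 ∈ Ω₂) (hx : Gen Φ S Ω₁ Ω₂ ψ₁ ψ₂ x) {u v : E}
    (hl : Leads Φ S (ψ₁ x.1, u) (ψ₂ x.2, v)) :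
    ∃ (w : ℕ → N) (s r : ℕ → ℝ) (z z' : E), (∀ n, Cfg Φ Ω₁ Ω₂ ψ₁ ψ₂ x (w n)) ∧ (∀ n, w n ≠ 0) ∧
      (∀ n : ℕ, (n : ℝ) < ‖fderiv ℝ ψ₁ x.1 (w n)‖) ∧
      Tendsto (fun n => rp Φ ψ₁ x (w n)) atTop (𝓝 ((ψ₁ x.1, u), (ψ₂ x.2, v))) ∧
      (∃ᶠ n in atTop, G1 Φ ψ₁ (x.1, w n) (s n) = z ∧ G1 Φ ψ₁ (x.1, w n) (r n) = z' ∧
        0 < r n ∧ r n < s n ∧ s n < 1) := by
  obtain ⟨B, hBS, -, -, hB⟩ := hsec (ψ₁ x.1) (hp₁.mem _ hx1) (ψ₂ x.2) (hp₂.mem _ hx2)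
  have happ : ∀ n : ℕ, ∃ w, Cfg Φ Ω₁ Ω₂ ψ₁ ψ₂ x w ∧ w ≠ 0 ∧ (n : ℝ) < ‖fderiv ℝ ψ₁ x.1 w‖ ∧
      (‖fderiv ℝ ψ₁ x.1 w‖⁻¹ • fderiv ℝ ψ₁ x.1 w,
        ‖fderiv ℝ ψ₁ x.1 w‖⁻¹ • deriv (G1 Φ ψ₁ (x.1, w)) 1) ∈
        Metric.ball (u, v) (1 / ((n : ℝ) + 1)) := fun n =>
    hx.lead u v hl _ Metric.isOpen_ball (Metric.mem_ball_self (by positivity)) n
  choose w hcfg hw0 hwM hwd using happ
  have hlim : Tendsto (fun n => ((‖fderiv ℝ ψ₁ x.1 (w n)‖⁻¹ • fderiv ℝ ψ₁ x.1 (w n),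
      ‖fderiv ℝ ψ₁ x.1 (w n)‖⁻¹ • deriv (G1 Φ ψ₁ (x.1, w n)) 1) : E × E)) atTop (𝓝 (u, v)) := by
    rw [tendsto_iff_dist_tendsto_zero]
    exact squeeze_zero (fun n => dist_nonneg) (fun n => (Metric.mem_ball.1 (hwd n)).le)
      tendsto_one_div_add_atTop_nhds_zero_nat
  have hlim1 := (continuous_fst.tendsto (u, v)).comp hlim
  have hlim2 := (continuous_snd.tendsto (u, v)).comp hlim
  have hrp : Tendsto (fun n => rp Φ ψ₁ x (w n)) atTop (𝓝 ((ψ₁ x.1, u), (ψ₂ x.2, v))) := by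
    have h1 : ∀ n, rp Φ ψ₁ x (w n) = ((ψ₁ x.1, ‖fderiv ℝ ψ₁ x.1 (w n)‖⁻¹ •
        fderiv ℝ ψ₁ x.1 (w n)), (ψ₂ x.2, ‖fderiv ℝ ψ₁ x.1 (w n)‖⁻¹ •
          deriv (G1 Φ ψ₁ (x.1, w n)) 1)) := by
      intro n
      rw [rp, (hcfg n).2.2.1]
    simp_rw [h1]
    exact (tendsto_const_nhds.prodMk_nhds hlim1).prodMk_nhds
      (tendsto_const_nhds.prodMk_nhds hlim2)
  have hgeo : ∀ n, IsGeo S (G1 Φ ψ₁ (x.1, w n)) ∧ G1 Φ ψ₁ (x.1, w n) 0 = ψ₁ x.1 ∧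
      deriv (G1 Φ ψ₁ (x.1, w n)) 0 = fderiv ℝ ψ₁ x.1 (w n) := fun n => isGeo_G1 h hp₁ hx1 (w n)
  have hd0 : ∀ n, deriv (G1 Φ ψ₁ (x.1, w n)) 0 ≠ 0 := fun n => by
    rw [(hgeo n).2.2]; exact fderiv_ne_zero hp₁ hx1 (hw0 n)
  -- the first blocking points
  have hb1 : ∀ n, ∃ s : ℝ, (0 < s ∧ s < 1) ∧ G1 Φ ψ₁ (x.1, w n) s ∈ B := by
    intro n
    obtain ⟨t, ht, htB⟩ := hB _ (hgeo n).1 (hgeo n).2.1 (hcfg n).2.2.1 (hd0 n)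
    exact ⟨t, ⟨ht.1, ht.2⟩, htB⟩
  choose s hs hsB using hb1
  obtain ⟨z, hzB, hz⟩ := exists_freq (s := (B : Set E)) B.finite_toSet
    (f := fun n => G1 Φ ψ₁ (x.1, w n) (s n)) (P := fun _ => True)
    (Eventually.of_forall fun _ => trivial).frequently fun n _ => hsB n
  -- the second blocking points
  obtain ⟨B', hB'S, -, -, hB'⟩ := hsec (ψ₁ x.1) (hp₁.mem _ hx1) z (hBS hzB)
  have hb2 : ∀ n, ∃ r : ℝ, G1 Φ ψ₁ (x.1, w n) (s n) = z →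
      (0 < r ∧ r < s n) ∧ G1 Φ ψ₁ (x.1, w n) r ∈ B' := by
    intro n
    by_cases hn : G1 Φ ψ₁ (x.1, w n) (s n) = z
    · have g1 := (hgeo n).1.affine 0 (s n)
      have g2 := deriv_affine (hgeo n).1 0 (s n)
      obtain ⟨t, ht, htB⟩ := hB' (fun t => G1 Φ ψ₁ (x.1, w n) (0 + s n * t)) g1 (by
        show G1 Φ ψ₁ (x.1, w n) (0 + s n * 0) = ψ₁ x.1
        rw [mul_zero, add_zero]; exact (hgeo n).2.1) (by
        show G1 Φ ψ₁ (x.1, w n) (0 + s n * 1) = z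
        rw [mul_one, zero_add]; exact hn) (by
        rw [g2]
        show s n • deriv (G1 Φ ψ₁ (x.1, w n)) (0 + s n * 0) ≠ 0
        rw [mul_zero, add_zero]
        exact smul_ne_zero (hs n).1.ne' (hd0 n))
      refine ⟨0 + s n * t, fun _ => ⟨⟨?_, ?_⟩, htB⟩⟩
      · have := mul_pos (hs n).1 ht.1
        linarith
      · have := mul_lt_mul_of_pos_left ht.2 (hs n).1
        linarith
    · exact ⟨0, fun hc => absurd hc hn⟩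
  choose r hr using hb2
  obtain ⟨z', -, hz'⟩ := exists_freq (s := (B' : Set E)) B'.finite_toSet
    (f := fun n => G1 Φ ψ₁ (x.1, w n) (r n)) hz fun n hn => (hr n hn.2).2
  refine ⟨w, s, r, z, z', hcfg, hw0, hwM, hrp, hz'.mono ?_⟩
  rintro n ⟨⟨-, h1⟩, h2⟩
  exact ⟨h1, h2, (hr n h1).1.1, (hr n h1).1.2, (hs n).2⟩

end Pool.Agent.H96.SF
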