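import Pool.Agent.H96.SF.Cover2

/-!
# Over generic pairs every return is a limit of exact returns of one pair of sheets: conclusion
-/

set_option autoImplicit false

open scoped InnerProductSpace Topology ContDiff
open Set Filter

namespace Pool.Agent.H96.SF

open Pool.Agent.H91.GE hiding G1 G11 Nondeg Br exists_br cF smooth_cF Cfg mem_TSet_of_map
open Pool.Agent.H59.LV Pool.Agent.H59.ND Pool.Agent.H77.ND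
open Pool.Agent.H91.SF (rp CR rp_eq)

variable {E F N : Type*} [NormedAddCommGroup E] [InnerProductSpace ℝ E] [FiniteDimensional ℝ E]
  [NormedAddCommGroup F] [InnerProductSpace ℝ F] [FiniteDimensional ℝ F]
  [NormedAddCommGroup N] [NormedSpace ℝ N] [FiniteDimensional ℝ N]
  {S : Set E} {A : E × E → E} {K K₂ : NNReal} {Φ : ℝ → E × E → E × E}
  {Ω₁ Ω₂ : Set N} {ψ₁ ψ₂ : N → E} {P₁ P₂ : E →L[ℝ] N} {W₁ W₂ : Set E}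

/-- The leaf of any geodesic through the point of a sheet. -/
theorem leaf_any (hdim : Module.finrank ℝ E = Module.finrank ℝ F + Module.finrank ℝ N)
    (h : GFlow F S A K K₂ Φ) (hp₁ : Patch S Ω₁ ψ₁ P₁ W₁) (hp₂ : Patch S Ω₂ ψ₂ P₂ W₂)
    {x : N × N} (hx : Gen Φ S Ω₁ Ω₂ ψ₁ ψ₂ x) {w₀ w₁ : N} {s₀ s₁ : ℝ}
    (sh : Sheet Φ Ω₁ Ω₂ ψ₁ ψ₂)
    (hb : (x, ((w₀, w₁), (s₀, s₁))) ∈ Cross Φ Ω₁ Ω₂ ψ₁ ψ₂)
    (hd : (x, ((w₀, w₁), (s₀, s₁))) ∈ sh.dom) (n₀ : w₀ ≠ 0) (t₀ : 0 < s₀ ∧ s₀ < 1)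
    {w : N} {s : ℝ} (cw : Cfg Φ Ω₁ Ω₂ ψ₁ ψ₂ x w) (nw : w ≠ 0)
    (hzs : G1 Φ ψ₁ (x.1, w) s = G1 Φ ψ₁ (x.1, w₀) s₀) (ts : 0 < s ∧ s < 1) :
    ∃ (O : Set (N × N)) (V : Set N) (κ : N × N → N) (θ : N × N → ℝ),
      Lf Φ Ω₁ Ω₂ ψ₁ ψ₂ sh.ζ O V κ θ ∧ x ∈ O ∧ κ x = w ∧ (0 < θ x ∧ θ x < 1) ∧
        (w ≠ w₀ → θ x = s) ∧ (w = w₀ → θ x = s₀) := by
  obtain ⟨k0, k1, hσ⟩ := sh.eq_of_mem hb hd
  have hxO : x ∈ sh.O := hd.1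
  have hz : sh.ζ x = G1 Φ ψ₁ (x.1, w₀) s₀ := by
    show G1 Φ ψ₁ (x.1, sh.κ₀ x) (sh.σ x).1 = _
    rw [k0, hσ]
  have c₀ : Cfg Φ Ω₁ Ω₂ ψ₁ ψ₂ x w₀ := hb.1
  have th₀ : (sh.σ x).1 = s₀ := by rw [hσ]
  by_cases hw : w = w₀
  · exact ⟨sh.O, sh.V₀, sh.κ₀, _, sh.lf₀, hxO, by rw [k0, hw], by
      show 0 < (sh.σ x).1 ∧ (sh.σ x).1 < 1
      rw [th₀]; exact t₀, fun hn => absurd hw hn, fun _ => th₀⟩
  · have hi : Indep (deriv (G1 Φ ψ₁ (x.1, w₀)) s₀) (deriv (G1 Φ ψ₁ (x.1, w)) s) :=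
      indep_of_ne h hp₁ hx.loop hx.loop' c₀.1 c₀.2.2.1 cw.2.2.1 n₀ nw (Ne.symm hw) hzs.symm
    obtain ⟨O, V, κ, θ, l, hxO', kx, tx⟩ := sh.exists_lf hdim h hp₁ hp₂ hx.tri hb hd cw
      (by rw [hz]; exact hzs) hi
    exact ⟨O, V, κ, θ, l, hxO', kx, by rw [tx]; exact ts, fun _ => tx, fun hn => absurd hn hw⟩

theorem cover_pt (hdim : Module.finrank ℝ E = Module.finrank ℝ F + Module.finrank ℝ N)
    (h : GFlow F S A K K₂ Φ) (hsec : Secure S)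
    (hp₁ : Patch S Ω₁ ψ₁ P₁ W₁) (hp₂ : Patch S Ω₂ ψ₂ P₂ W₂) {T : Set (Sheet Φ Ω₁ Ω₂ ψ₁ ψ₂)}
    (hT : ∀ b ∈ Cross Φ Ω₁ Ω₂ ψ₁ ψ₂, ∃ s ∈ T, b ∈ s.dom) {x : N × N} (hx1 : x.1 ∈ Ω₁)
    (hx2 : x.2 ∈ Ω₂) (hx : Gen Φ S Ω₁ Ω₂ ψ₁ ψ₂ x) {u v : E}
    (hl : Leads Φ S (ψ₁ x.1, u) (ψ₂ x.2, v)) :
    ∃ s ∈ T, ∃ s' ∈ T, x ∈ s.O ∧ x ∈ s'.O ∧
      ((∀ b : N, fderiv ℝ s.ζ x (0, b) = 0 → b = 0) ∧
        ∀ b : N, fderiv ℝ s.ζ x (b, 0) = 0 → b = 0) ∧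
      ((∀ b : N, fderiv ℝ s'.ζ x (0, b) = 0 → b = 0) ∧
        ∀ b : N, fderiv ℝ s'.ζ x (b, 0) = 0 → b = 0) ∧
      (¬ ∀ᶠ y in 𝓝 x, ¬ Jn s.ζ s'.ζ y) ∧
      ∃ ε ε' : ℝ, (ε = 1 ∨ ε = -1) ∧ (ε' = 1 ∨ ε' = -1) ∧
        ((ψ₁ x.1, u), (ψ₂ x.2, v)) ∈ closure (Cl Φ Ω₁ Ω₂ ψ₁ ψ₂ {x} s.ζ s'.ζ ε ε') := by
  obtain ⟨w, s, r, z, z', hcfg, hw0, hwM, hrp, hfr⟩ := exists_seq h hsec hp₁ hp₂ hx1 hx2 hx hl
  -- two different geodesics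
  obtain ⟨a, ha1, ha2, ha3, ha4, ha5⟩ := hfr.exists
  obtain ⟨m, hm⟩ := exists_nat_ge ‖fderiv ℝ ψ₁ x.1 (w a)‖
  obtain ⟨b, ⟨hb1, hb2, hb3, hb4, hb5⟩, hbm⟩ := (hfr.and_eventually (eventually_ge_atTop m)).exists
  have hab : w a ≠ w b := by
    intro he
    have h1 := hwM b
    rw [← he] at h1
    have h2 : (m : ℝ) ≤ b := by exact_mod_cast hbm
    linarith
  have hind : ∀ s s' : ℝ, G1 Φ ψ₁ (x.1, w a) s = G1 Φ ψ₁ (x.1, w b) s' →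
      Indep (deriv (G1 Φ ψ₁ (x.1, w a)) s) (deriv (G1 Φ ψ₁ (x.1, w b)) s') := fun s s' he =>
    indep_of_ne h hp₁ hx.loop hx.loop' hx1 (hcfg a).2.2.1 (hcfg b).2.2.1 (hw0 a) (hw0 b) hab he
  have hc1 : (x, ((w a, w b), (s a, s b))) ∈ Cross Φ Ω₁ Ω₂ ψ₁ ψ₂ :=
    ⟨hcfg a, hcfg b, by rw [ha1, hb1], hind _ _ (by rw [ha1, hb1])⟩
  have hc2 : (x, ((w a, w b), (r a, r b))) ∈ Cross Φ Ω₁ Ω₂ ψ₁ ψ₂ :=
    ⟨hcfg a, hcfg b, by rw [ha2, hb2], hind _ _ (by rw [ha2, hb2])⟩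
  obtain ⟨sh, hshT, hd1⟩ := hT _ hc1
  obtain ⟨sh', hsh'T, hd2⟩ := hT _ hc2
  have hxO : x ∈ sh.O := hd1.1
  have hxO' : x ∈ sh'.O := hd2.1
  have ta : 0 < s a ∧ s a < 1 := ⟨ha3.trans ha4, ha5⟩
  have tb : 0 < s b ∧ s b < 1 := ⟨hb3.trans hb4, hb5⟩
  have ra : 0 < r a ∧ r a < 1 := ⟨ha3, ha4.trans ha5⟩
  have rb : 0 < r b ∧ r b < 1 := ⟨hb3, hb4.trans hb5⟩
  have hζd : DifferentiableAt ℝ sh.ζ x :=
    (contDiffAt_of_open sh.cr.isOpen (sh.smooth_ζ h hp₁) hxO).differentiableAt (by simp)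
  have hζd' : DifferentiableAt ℝ sh'.ζ x :=
    (contDiffAt_of_open sh'.cr.isOpen (sh'.smooth_ζ h hp₁) hxO').differentiableAt (by simp)
  have inj1 := inj_of_gen hdim h hp₁ hp₂ hx sh hc1 hd1 (hw0 a) (hw0 b) hab ta tb
  have inj2 := inj_of_gen hdim h hp₁ hp₂ hx sh' hc2 hd2 (hw0 a) (hw0 b) hab ra rb
  refine ⟨sh, hshT, sh', hsh'T, hxO, hxO', inj1, inj2, ?_, ?_⟩
  · -- the joint derivative
    intro hev
    have hfam : ∀ n, G1 Φ ψ₁ (x.1, w n) (s n) = z → G1 Φ ψ₁ (x.1, w n) (r n) = z' →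
        0 < r n → r n < s n → s n < 1 → (w n = w a → s n = s a ∧ r n = r a) →
        ∃ (O : Set (N × N)) (V : Set N) (κ : N × N → N) (θ θ' : N × N → ℝ), IsOpen O ∧ x ∈ O ∧
          Br Φ Ω₁ Ω₂ ψ₁ ψ₂ O V κ ∧ κ x = w n ∧ Two Φ Ω₁ Ω₂ ψ₁ ψ₂ O κ θ θ' sh.ζ sh'.ζ := by
      intro n e1 e2 e3 e4 e5 e6
      obtain ⟨O, V, κ, θ, l, hx', kx, -, t1, t2⟩ := leaf_any hdim h hp₁ hp₂ hx sh hc1 hd1 (hw0 a)
        ta (hcfg n) (hw0 n) (s := s n) (by rw [e1, ha1]) ⟨e3.trans e4, e5⟩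
      obtain ⟨O', V', κ', θ', l', hx'', kx', -, t1', t2'⟩ := leaf_any hdim h hp₁ hp₂ hx sh' hc2
        hd2 (hw0 a) ra (hcfg n) (hw0 n) (s := r n) (by rw [e2, ha2]) ⟨e3, e4.trans e5⟩
      obtain ⟨O'', hxO'', l1, l2⟩ := lf_same l l' hx' hx'' (by rw [kx, kx'])
      have hθ : θ x = s n := by
        by_cases hn : w n = w a
        · rw [t2 hn, (e6 hn).1]
        · exact t1 hn
      have hθ' : θ' x = r n := by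
        by_cases hn : w n = w a
        · rw [t2' hn, (e6 hn).2]
        · exact t1' hn
      obtain ⟨Oq, hOq, hxq, hsub, ht⟩ := two_of_lf l1 l2 hxO'' (by rw [kx]; exact hw0 n)
        (by rw [hθ, hθ']; exact e4)
      exact ⟨Oq, V, κ, θ, θ', hOq, hxq, br_mono l1.toBr hOq hsub, kx, ht⟩
    obtain ⟨Oa, Va, κa, θa, θa', oa, xa, bra, ka, twa⟩ := hfam a ha1 ha2 ha3 ha4 ha5
      fun _ => ⟨rfl, rfl⟩
    obtain ⟨Ob, Vb, κb, θb, θb', ob, xb, brb, kb, twb⟩ := hfam b hb1 hb2 hb3 hb4 hb5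
      fun hn => absurd hn hab.symm
    have hg0 : ∀ n, G1 Φ ψ₁ (x.1, w n) 0 = ψ₁ x.1 := fun n => (isGeo_G1 h hp₁ hx1 (w n)).2.1
    have i0 : Indep (deriv (cF Φ ψ₁ κa x) 0) (deriv (cF Φ ψ₁ κb x) 0) := by
      show Indep (deriv (G1 Φ ψ₁ (x.1, κa x)) 0) (deriv (G1 Φ ψ₁ (x.1, κb x)) 0)
      rw [ka, kb]; exact hind 0 0 (by rw [hg0, hg0])
    have i1 : Indep (deriv (cF Φ ψ₁ κa x) 1) (deriv (cF Φ ψ₁ κb x) 1) := by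
      show Indep (deriv (G1 Φ ψ₁ (x.1, κa x)) 1) (deriv (G1 Φ ψ₁ (x.1, κb x)) 1)
      rw [ka, kb]; exact hind 1 1 (by rw [(hcfg a).2.2.1, (hcfg b).2.2.1])
    have e0 := indep_eventually (cd_branch h hp₁ bra xa 0) (cd_branch h hp₁ brb xb 0) i0
    have e1 := indep_eventually (cd_branch h hp₁ bra xa 1) (cd_branch h hp₁ brb xb 1) i1
    have ea : ∀ᶠ y in 𝓝 x, y ∈ Oa := oa.mem_nhds xa
    have eb : ∀ᶠ y in 𝓝 x, y ∈ Ob := ob.mem_nhds xb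
    have es : ∀ᶠ y in 𝓝 x, y ∈ sh.O := sh.cr.isOpen.mem_nhds hxO
    have es' : ∀ᶠ y in 𝓝 x, y ∈ sh'.O := sh'.cr.isOpen.mem_nhds hxO'
    obtain ⟨V, hV, hVo, hxV⟩ := mem_nhds_iff.1 (hev.and (ea.and (eb.and (es.and (es'.and
      (e0.and e1))))))
    have hmono : ∀ {O : Set (N × N)} {κ : N × N → N} {θ θ' : N × N → ℝ},
        Two Φ Ω₁ Ω₂ ψ₁ ψ₂ O κ θ θ' sh.ζ sh'.ζ → V ⊆ O →
        Two Φ Ω₁ Ω₂ ψ₁ ψ₂ V κ θ θ' sh.ζ sh'.ζ := fun t hs =>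
      { sκ := t.sκ.mono hs, sθ := t.sθ.mono hs, sθ' := t.sθ'.mono hs
        mem := fun y hy => t.mem y (hs hy), last := fun y hy => t.last y (hs hy)
        cr := fun y hy => t.cr y (hs hy), cr' := fun y hy => t.cr' y (hs hy)
        ne := fun y hy => t.ne y (hs hy), lt := fun y hy => t.lt y (hs hy) }
    obtain ⟨y, hyV, hy⟩ := exists_joint h hsec hp₁ hp₂ hVo ⟨x, hxV⟩
      ((sh.smooth_ζ h hp₁).mono fun y hy => (hV hy).2.2.2.1)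
      ((sh'.smooth_ζ h hp₁).mono fun y hy => (hV hy).2.2.2.2.1)
      (hmono twa fun y hy => (hV hy).2.1) (hmono twb fun y hy => (hV hy).2.2.1)
      (fun y hy => (hV hy).2.2.2.2.2.1) fun y hy => (hV hy).2.2.2.2.2.2
    exact (hV hyV).1 hy
  · -- the signs
    have hcr : ∀ n, ∃ α α' : ℝ, (G1 Φ ψ₁ (x.1, w n) (s n) = z ∧
        G1 Φ ψ₁ (x.1, w n) (r n) = z' ∧ 0 < r n ∧ r n < s n ∧ s n < 1) →
        CR Φ Ω₁ Ω₂ ψ₁ ψ₂ sh.ζ x (w n) α ∧ CR Φ Ω₁ Ω₂ ψ₁ ψ₂ sh'.ζ x (w n) α' ∧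
          α ≠ 0 ∧ α' ≠ 0 := by
      intro n
      by_cases hn : G1 Φ ψ₁ (x.1, w n) (s n) = z ∧
        G1 Φ ψ₁ (x.1, w n) (r n) = z' ∧ 0 < r n ∧ r n < s n ∧ s n < 1
      · obtain ⟨e1, e2, e3, e4, e5⟩ := hn
        obtain ⟨O, V, κ, θ, l, hx', kx, tt, -, -⟩ := leaf_any hdim h hp₁ hp₂ hx sh hc1 hd1 (hw0 a)
          ta (hcfg n) (hw0 n) (s := s n) (by rw [e1, ha1]) ⟨e3.trans e4, e5⟩
        obtain ⟨O', V', κ', θ', l', hx'', kx', tt', -, -⟩ := leaf_any hdim h hp₁ hp₂ hx sh' hc2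
          hd2 (hw0 a) ra (hcfg n) (hw0 n) (s := r n) (by rw [e2, ha2]) ⟨e3, e4.trans e5⟩
        obtain ⟨α, hα⟩ := cr_of_lf h hp₁ hp₂ l hx' hζd kx (hcfg n) (hw0 n) tt.1 tt.2
        obtain ⟨α', hα'⟩ := cr_of_lf h hp₁ hp₂ l' hx'' hζd' kx' (hcfg n) (hw0 n) tt'.1 tt'.2
        have hnz : ∀ {ζ : N × N → E} {α : ℝ}, CR Φ Ω₁ Ω₂ ψ₁ ψ₂ ζ x (w n) α →
            (∀ b : N, fderiv ℝ ζ x (b, 0) = 0 → b = 0) → α ≠ 0 := by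
          intro ζ α hc hi h0
          obtain ⟨-, -, O₂, V₂, κ₂, θ₂, -, -, -, -, -, hd⟩ := hc
          rw [h0, zero_smul] at hd
          exact hw0 n (hi _ hd)
        exact ⟨α, α', fun _ => ⟨hα, hα', hnz hα inj1.2, hnz hα' inj2.2⟩⟩
      · exact ⟨0, 0, fun hc => absurd hc hn⟩
    choose α α' hα using hcr
    obtain ⟨⟨σ, σ'⟩, -, hσ⟩ := exists_freq (s := (univ : Set (SignType × SignType)))
      (Set.toFinite _) (f := fun n => (SignType.sign (α n), SignType.sign (α' n))) hfr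
      fun n _ => mem_univ _
    have hsgn : ∀ t : ℝ, t ≠ 0 → 0 < ((SignType.sign t : SignType) : ℝ) * t := by
      intro t ht
      rcases lt_or_gt_of_ne ht with h1 | h1
      · rw [sign_neg h1]
        simpa using h1
      · rw [sign_pos h1]
        simpa using h1
    have hval : ∀ t : ℝ, t ≠ 0 → (((SignType.sign t : SignType) : ℝ) = 1 ∨
        ((SignType.sign t : SignType) : ℝ) = -1) := by
      intro t ht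
      rcases lt_or_gt_of_ne ht with h1 | h1
      · right; rw [sign_neg h1]; simp
      · left; rw [sign_pos h1]; simp
    obtain ⟨n₀, hn₀, hn₀'⟩ := hσ.exists
    have hs1 : SignType.sign (α n₀) = σ := congrArg Prod.fst hn₀'
    have hs2 : SignType.sign (α' n₀) = σ' := congrArg Prod.snd hn₀'
    refine ⟨(σ : ℝ), (σ' : ℝ), ?_, ?_, ?_⟩
    · rw [← hs1]; exact hval _ (hα n₀ hn₀).2.2.1
    · rw [← hs2]; exact hval _ (hα n₀ hn₀).2.2.2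
    · refine mem_closure_of_frequently_of_tendsto (hσ.mono ?_) hrp
      rintro n ⟨hn, hn'⟩
      have q1 : SignType.sign (α n) = σ := congrArg Prod.fst hn'
      have q2 : SignType.sign (α' n) = σ' := congrArg Prod.snd hn'
      obtain ⟨c1, c2, c3, c4⟩ := hα n hn
      refine ⟨x, rfl, w n, α n, α' n, rfl, c1, ?_, c2, ?_⟩
      · rw [← q1]; exact hsgn _ c3
      · rw [← q2]; exact hsgn _ c4

end Pool.Agent.H96.SF
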